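import Pool.Agent.Lib.MP_322c76_al.BW.FinO

set_option autoImplicit false

namespace Pool.Agent.Results.MP_322c76_al.BoundedCutwidth

universe u v

/-- The Schreier graph of the action of `G` on `X` with respect to `A` has cutwidth at most `c`:
for some linear order of `X`, every cut `{y < x₀} | {y ≥ x₀}` is crossed by at most `c` pairs
`(a, y)` with `a ∈ A` (the pair `(a, y)` is the edge from `y` to `a y`). -/
def CutwidthLE (G : Type u) [Group G] (A : Finset G) (c : ℕ) (X : Type v) [MulAction G X] : Prop :=
  ∃ _ : LinearOrder X, ∀ x₀ : X, {e : G × X | e.1 ∈ A ∧ ((e.2 < x₀ ∧ x₀ ≤ e.1 • e.2) ∨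
    (e.1 • e.2 < x₀ ∧ x₀ ≤ e.2))}.encard ≤ c

/-- **Condition `C(N, n)` forces exponent at most `n` in all groups with a faithful action whose
orbits have bounded cutwidth**: `N` depends only on the number `k` of generators, on `n` and on
the bound `c`. Finiteness of the group need not be assumed, and its order is bounded too. -/
theorem result (k n c : ℕ) (hn : 1 ≤ n) : ∃ N B : ℕ, ∀ (G : Type u) [Group G] (A : Finset G),
    A.card ≤ k → Subgroup.closure (A : Set G) = ⊤ →
      ∀ (X : Type v) [MulAction G X] [FaithfulSMul G X],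
        (∀ x : X, CutwidthLE G A c (MulAction.orbit G x)) →
        (∀ x : Fin N → G, (∀ i, x i = 1 ∨ x i ∈ A) → (List.ofFn x).prod ^ n = 1) →
          Finite G ∧ Nat.card G ≤ B ∧ (∀ g : G, g ^ n = 1) ∧ Monoid.exponent G ≤ n :=
  Pool.Agent.Lib.MP_322c76_al.BW.final_orbits k n c hn

end Pool.Agent.Results.MP_322c76_al.BoundedCutwidth
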