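import Pool.Agent.Lib.NLQ.Fin
import Pool.Agent.Lib.NLB.Tfi

/-!
# MP_322c76_al: lower bounds for the number N(k,n)

Let `q = p ^ a > 1` be a prime power, `q m` a divisor of `n` and `Q` a finite group of exponent dividing `m`, generated by at most `k` elements.
If `q ≥ C` and `N ≤ 2^(q/C)` (`C` an absolute constant), or if `2^(q+1) k^(N+1) ≤ |Q|^(q-1)`, there are finite groups of arbitrarily large order,
generated by a set of exactly `k` elements which satisfies the condition `C(N,n)`, and an infinite residually finite torsion group, generated by a set of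
exactly `k` elements with `C(N,n)`; the prime divisors of the orders of all elements divide `p m`, and the groups are (residually) soluble if `Q` is soluble.
Soluble groups `Q` as above exist with `m = p_1 ... p_s` for all primes `p_i` and with order at least a tower of height `s`.
-/

set_option autoImplicit false

namespace Pool.Agent.Results.MP_322c76_al.ExponentialLowerBound

/-- the condition `C(N,n)` for a set `S` of generators: all products of `N` elements of `S ∪ {1}` have trivial `n`-th power -/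
def Cond {G : Type} [Group G] (N n : ℕ) (S : Finset G) : Prop :=
  ∀ l : List G, l.length = N → (∀ x ∈ l, x ∈ S ∨ x = 1) → l.prod ^ n = 1

/-- `G` is generated by `S` -/
def Generates {G : Type} [Group G] (S : Finset G) : Prop := Subgroup.closure (S : Set G) = ⊤

/-- every element has finite order, and all prime divisors of the order divide `r` -/
def PiGroup (r : ℕ) (G : Type) [Group G] : Prop := ∀ x : G, ∃ m : ℕ, 0 < m ∧ x ^ m = 1 ∧ ∀ t : ℕ, t.Prime → t ∣ m → t ∣ r

/-- finite groups of arbitrarily large order, soluble under the condition `σ` -/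
def LargeFinite (σ : Prop) (r k n N : ℕ) : Prop :=
  ∀ B : ℕ, ∃ (G : Type) (_ : Group G) (S : Finset G),
    Finite G ∧ (σ → Group.IsSolvable G) ∧ PiGroup r G ∧ B < Nat.card G ∧ S.card = k ∧ Generates S ∧ Cond N n S

/-- an infinite torsion group, residually a finite group, which is soluble under the condition `σ` -/
def InfiniteTorsion (σ : Prop) (r k n N : ℕ) : Prop :=
  ∃ (G : Type) (_ : Group G) (S : Finset G), Infinite G ∧ PiGroup r G ∧ S.card = k ∧ Generates S ∧ Cond N n S ∧
    ∀ x : G, x ≠ 1 → ∃ (P : Type) (_ : Group P) (f : G →* P), Finite P ∧ (σ → Group.IsSolvable P) ∧ f x ≠ 1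

/-- `Q` has a generating set with at most `k` elements, and its exponent divides `m` -/
def Bounded (k m : ℕ) (Q : Type) [Group Q] : Prop := (∃ A : Finset Q, A.card ≤ k ∧ Generates A) ∧ ∀ g : Q, g ^ m = 1

/-- towers of exponentials with bases from a list; `k` is the number of generators -/
def tower (k : ℕ) : List ℕ → ℕ
  | [] => 1
  | p :: l => p ^ ((k - 1) * tower k l + 1)

private theorem tower_eq (k : ℕ) (l : List ℕ) : tower k l = NLK.tk k l := by
  induction l with
  | nil => rfl
  | cons p l ih =>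
    show p ^ ((k - 1) * tower k l + 1) = p ^ ((k - 1) * NLK.tk k l + 1)
    rw [ih]

private theorem pi_of_p (p r : ℕ) (hp : p.Prime) (hpr : p ∣ r) (G : Type) [Group G] (h : IsPGroup p G) : PiGroup r G := by
  intro x
  obtain ⟨j, hj⟩ := h x
  refine ⟨p ^ j, pow_pos hp.pos j, hj, fun t ht htd => ?_⟩
  rw [(Nat.prime_dvd_prime_iff_eq ht hp).1 (ht.dvd_of_dvd_pow htd)]
  exact hpr

private theorem pi_of_list (r : ℕ) (G : Type) [Group G] (h : NLU.PiGroup r.primeFactorsList G) : PiGroup r G := by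
  intro x
  obtain ⟨m, h1, h2, h3⟩ := h x
  exact ⟨m, h1, h2, fun t ht htd => Nat.dvd_of_mem_primeFactorsList (h3 t ht htd)⟩

private theorem sol_of_p (p : ℕ) (hp : p.Prime) (G : Type) [Group G] [Finite G] (h : IsPGroup p G) : Group.IsSolvable G := by
  have : Fact p.Prime := ⟨hp⟩
  have := h.isNilpotent
  infer_instance

theorem result :
    (∃ C : ℕ, 1 ≤ C ∧ ∀ (k n N p a m : ℕ) (Q : Type) [Group Q] [Finite Q], 2 ≤ k → p.Prime → 1 ≤ a → 1 ≤ m → p ^ a * m ∣ n →
      Bounded k m Q → (C ≤ p ^ a ∧ N ^ C ≤ 2 ^ (p ^ a)) ∨ 2 ^ (p ^ a + 1) * k ^ (N + 1) ≤ Nat.card Q ^ (p ^ a - 1) →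
      LargeFinite (Group.IsSolvable Q) (p * m) k n N ∧ InfiniteTorsion (Group.IsSolvable Q) (p * m) k n N) ∧
    ∀ (k : ℕ), 1 ≤ k → ∀ l : List ℕ, (∀ p ∈ l, p.Prime) →
      ∃ (Q : Type) (_ : Group Q), Finite Q ∧ Group.IsSolvable Q ∧ Bounded k l.prod Q ∧ tower k l ≤ Nat.card Q := by
  refine ⟨?_, fun k hk l hl => ?_⟩
  · obtain ⟨C₁, h₁, hC₁⟩ := NLB.main
    obtain ⟨C₂, h₂, hC₂⟩ := NLB.torsion_main
    refine ⟨max C₁ C₂, le_max_of_le_left h₁, fun k n N p a m Q _ _ hk hp ha hm hn hQ h => ?_⟩
    have hpm : p ∣ p * m := dvd_mul_right p m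
    have hpm0 : p * m ≠ 0 := Nat.mul_ne_zero hp.ne_zero (by omega)
    rcases h with ⟨hq, hN⟩ | hN
    · have hd : p ^ a ∣ n := (dvd_mul_right _ _).trans hn
      have key : ∀ c, 1 ≤ c → c ≤ max C₁ C₂ → N ^ c ≤ 2 ^ (p ^ a) := by
        intro c hc1 hc
        rcases Nat.eq_zero_or_pos N with h0 | h0
        · subst h0
          rw [zero_pow (by omega)]
          exact Nat.zero_le _
        · exact (Nat.pow_le_pow_right h0 hc).trans hN
      refine ⟨fun B => ?_, ?_⟩
      · obtain ⟨G, _, S, h1, h2, h3, h4, h5, h6⟩ :=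
          hC₁ p a hp ((le_max_left _ _).trans hq) k n N B hk hd (key C₁ h₁ (le_max_left _ _))
        exact ⟨G, inferInstance, S, h1, fun _ => sol_of_p p hp G h2, pi_of_p p _ hp hpm G h2, h6, h3, h4, h5⟩
      · obtain ⟨G, _, S, h1, h2, h3, h4, h5, h6⟩ :=
          hC₂ p a hp ((le_max_right _ _).trans hq) k n N hk hd (key C₂ h₂ (le_max_right _ _))
        refine ⟨G, inferInstance, S, h1, pi_of_p p _ hp hpm G h2, h3, h4, h5, fun x hx => ?_⟩
        obtain ⟨P, _, f, hP, hf⟩ := h6 x hx
        refine ⟨f.range, inferInstance, f.rangeRestrict, inferInstance,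
          fun _ => sol_of_p p hp f.range (h2.of_surjective f.rangeRestrict f.rangeRestrict_surjective), fun h => hf ?_⟩
        exact congrArg Subtype.val h
    · obtain ⟨⟨A, hA, hgen⟩, he⟩ := hQ
      obtain ⟨h1, h2⟩ := NLQ.quot_k (p * m).primeFactorsList p a m k n N hp ha
        ((Nat.mem_primeFactorsList hpm0).2 ⟨hp, hpm⟩) (by omega)
        (fun r hr hrm => (Nat.mem_primeFactorsList hpm0).2 ⟨hr, hrm.trans (dvd_mul_left _ _)⟩) hk hn Q A hA hgen he hN
      refine ⟨fun B => ?_, ?_⟩
      · obtain ⟨G, _, S, h1, h7, h2, h3, h4, h5, h6⟩ := h1 B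
        exact ⟨G, inferInstance, S, h1, h7, pi_of_list _ G h2, h6, h3, h4, h5⟩
      · obtain ⟨G, _, S, h1, h2, h3, h4, h5, h6⟩ := h2
        exact ⟨G, inferInstance, S, h1, pi_of_list _ G h2, h3, h4, h5, h6⟩
  · obtain ⟨Q, _, A, h1, h2, h3, h4, h5, h6⟩ := NLQ.exists_tower k hk l hl
    exact ⟨Q, inferInstance, h1, h2, ⟨⟨A, h3, h4⟩, h5⟩, by rw [tower_eq]; exact h6⟩

end Pool.Agent.Results.MP_322c76_al.ExponentialLowerBound
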