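import Pool.Agent.Lib.MP_322c76_al.Series

set_option autoImplicit false

namespace Pool.Agent.Results.MP_322c76_al.LinearSeries

universe u

open Pool.Agent.Lib.MP_322c76_al

/-- **Condition `C(N, n)` forces exponent at most `n` in all groups which have a series of bounded
length with factors that are abelian or linear of bounded degree over commutative rings**: `N`
depends only on the number `k` of generators, on `n`, and on the bounds `l` for the length and `d`
for the degrees. Finiteness of the group need not be assumed, and its order is bounded too. -/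
theorem result (k n d l : ℕ) (hn : 1 ≤ n) : ∃ N B : ℕ, ∀ (G : Type u) [Group G] (A : Finset G),
    A.card ≤ k → Subgroup.closure (A : Set G) = ⊤ → LinearSeries d l G →
      (∀ x : Fin N → G, (∀ i, x i = 1 ∨ x i ∈ A) → (List.ofFn x).prod ^ n = 1) →
        Finite G ∧ Nat.card G ≤ B ∧ (∀ g : G, g ^ n = 1) ∧ Monoid.exponent G ≤ n := by
  obtain ⟨N, B, h⟩ := exponent_bound.{u} d n hn l k
  refine ⟨N, B, fun G _ A hA hgen hs hx => ?_⟩
  -- an enumeration of the generators, filled up with `1`
  let a : Fin k → G := fun i => if h : (i : ℕ) < A.card then
    (A.equivFin.symm ⟨i, h⟩ : G) else 1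
  have ha : ∀ i, a i = 1 ∨ a i ∈ A := by
    intro i
    simp only [a]
    split_ifs
    · exact Or.inr (Finset.coe_mem _)
    · exact Or.inl rfl
  have hgen' : Subgroup.closure (Set.range a) = ⊤ := by
    rw [eq_top_iff, ← hgen]
    refine Subgroup.closure_mono fun g hg => ?_
    have h1 := (A.equivFin ⟨g, hg⟩).2
    refine ⟨⟨A.equivFin ⟨g, hg⟩, lt_of_lt_of_le h1 hA⟩, ?_⟩
    simp only [a]
    rw [dif_pos h1]
    simp
  have hw : ∀ w : List (Fin k), w.length ≤ N → wp a w ^ n = 1 := by
    intro w hwl
    let x : Fin N → G := fun i => if h : (i : ℕ) < w.length then a (w.get ⟨i, h⟩) else 1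
    have h1 : ∀ i, x i = 1 ∨ x i ∈ A := by
      intro i
      simp only [x]
      split_ifs
      · exact ha _
      · exact Or.inl rfl
    have h2 : (List.ofFn x).prod = wp a w := by
      have h3 : List.ofFn x = w.map a ++ List.replicate (N - w.length) 1 := by
        apply List.ext_getElem
        · simp
          omega
        · intro i hi1 hi2
          rw [List.getElem_ofFn, List.getElem_append]
          simp only [x]
          split_ifs with h4 h5 h5
          · simp
          · simp at h5; omega
          · simp at h5; omega
          · simp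
      rw [h3, List.prod_append]
      simp [wp]
    rw [← h2]
    exact hx x h1
  obtain ⟨h1, h2, h3⟩ := h G a hgen' hs hw
  exact ⟨h1, h2, h3, Monoid.exponent_min' n hn h3⟩

end Pool.Agent.Results.MP_322c76_al.LinearSeries
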