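import Pool.Agent.Lib.MP_322c76_al.Quot
import Pool.Agent.Lib.MP_322c76_al.Diam

/-!
# Powers of short products: soluble groups, and reduction to finite simple groups

`C(N, n)`: the `n`-th powers of all products of at most `N` elements of the generating set are
trivial. Let `U` be the subgroup generated by all `n`-th powers of the group `G` and `R` a bound
for its index (the restricted Burnside theorem: `R = R(k, n)` works for all finite `k`-generated `G`).
(1) For every group, finite or not: if every coset of `U` contains a product of at most `D`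
generators (for example if the index of `U` is at most `D + 1`), then `C(N, n)` with `N ≥ 3 D + 1`
implies that `U` is perfect, so `U = 1` if `G` is soluble.
(2) For every group with `k` generators, finite or not: if `N` is large in terms of
`k, n, R, d, N'`, then `C(N, n)` implies that no nontrivial quotient of `U` is abelian or linear of
degree at most `d`, and that `U` is generated by `k'` elements with `C(N', n)`; here `k'` depends on
`k, n, R` only, and `N', d` are arbitrary. So a finite `G` has exponent at most `n` unless `U` has a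
nonabelian simple quotient with these properties, of order not prime to `n`.
-/

set_option autoImplicit false

namespace Pool.Agent.Results.MP_322c76_al.ReductionToSimple

universe u

open Pool.Agent.Lib.MP_322c76_al

/-- the condition `C(N, n)` with respect to `A` -/
def Cond (N n : ℕ) {G : Type u} [Group G] (A : Finset G) : Prop :=
  ∀ x : Fin N → G, (∀ i, x i = 1 ∨ x i ∈ A) → (List.ofFn x).prod ^ n = 1

/-- the subgroup generated by all `n`-th powers -/
def Powers (n : ℕ) (G : Type u) [Group G] : Subgroup G :=
  Subgroup.closure {x | ∃ g : G, g ^ n = x}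

theorem word_of_list {G : Type u} [Group G] {k : ℕ} (b : Fin k → G) (l : List G)
    (h : ∀ g ∈ l, g = 1 ∨ g ∈ Set.range b) : ∃ v : List (Fin k), v.length ≤ l.length ∧
      wp b v = l.prod := by
  induction l with
  | nil => exact ⟨[], le_refl _, rfl⟩
  | cons g l ih =>
    obtain ⟨v, hv, hv'⟩ := ih fun x hx => h x (List.mem_cons_of_mem _ hx)
    rcases h g List.mem_cons_self with h1 | ⟨i, h1⟩
    · refine ⟨v, hv.trans (by simp), ?_⟩
      rw [List.prod_cons, h1, one_mul, hv']
    · refine ⟨i :: v, by simpa using hv, ?_⟩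
      rw [List.prod_cons, ← hv', ← h1]
      simp [wp]

theorem powers_eq (n : ℕ) (G : Type u) [Group G] : Powers n G = Pw n G := rfl

/-- every coset of the subgroup of the powers contains a product of at most `D` elements of `A` -/
def Short (D n : ℕ) {G : Type u} [Group G] (A : Finset G) : Prop :=
  ∀ g : G, ∃ l : List G, l.length ≤ D ∧ (∀ x ∈ l, x ∈ A) ∧ l.prod⁻¹ * g ∈ Powers n G

theorem short_of_index {n D : ℕ} (hn : 1 ≤ n) (G : Type u) [Group G] (A : Finset G)
    (hgen : Subgroup.closure (A : Set G) = ⊤) (hfi : (Powers n G).FiniteIndex)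
    (hidx : (Powers n G).index ≤ D + 1) : Short D n A := by
  intro g
  have hU := Pw_normal n G
  let a : {g : G // g ∈ A} → G := Subtype.val
  have hr : Set.range a = (A : Set G) := Subtype.range_coe
  have hfi' : (Pw n G).FiniteIndex := hfi
  have hfq : Finite (G ⧸ Pw n G) := inferInstance
  obtain ⟨w, hwl, hwg⟩ := short_word (fun i => (a i : G ⧸ Pw n G)) (fun q => by
    have hq : q ∈ Subgroup.closure (Set.range fun i => (a i : G ⧸ Pw n G)) := by
      have e : (Set.range fun i => (a i : G ⧸ Pw n G)) = (QuotientGroup.mk' (Pw n G)) '' Set.range a := by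
        rw [← Set.range_comp]; rfl
      rw [e, ← MonoidHom.map_closure, hr, hgen, ← MonoidHom.range_eq_map,
        MonoidHom.range_eq_top.2 (QuotientGroup.mk'_surjective _)]
      trivial
    exact pos_word _ hn (fun i => by
      rw [← QuotientGroup.mk_pow, QuotientGroup.eq_one_iff]
      exact Subgroup.subset_closure ⟨_, rfl⟩) hq) (g : G ⧸ Pw n G)
  refine ⟨w.map a, ?_, ?_, ?_⟩
  · have h3 : Nat.card (G ⧸ Pw n G) = (Powers n G).index := rfl
    rw [h3] at hwl
    rw [List.length_map]
    omega
  · intro x hx
    obtain ⟨i, _, rfl⟩ := List.mem_map.1 hx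
    exact i.2
  · have h3 : ((wp a w : G) : G ⧸ Pw n G) = g := by
      rw [← hwg]
      exact map_wp (QuotientGroup.mk' (Pw n G)) a w
    exact QuotientGroup.eq.1 h3

theorem perfect_part {n D : ℕ} (G : Type u) [Group G] (A : Finset G) (N : ℕ)
    (hgen : Subgroup.closure (A : Set G) = ⊤) (hD : Short D n A) (hN : 3 * D + 1 ≤ N)
    (hx : Cond N n A) : ⁅Powers n G, Powers n G⁆ = Powers n G := by
  classical
  let a : {g : G // g ∈ A} → G := Subtype.val
  have hr : Set.range a = (A : Set G) := Subtype.range_coe
  refine Pw_perfect_diam a n D (by rw [hr]; exact hgen) (fun g => ?_) fun w hwl => ?_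
  · obtain ⟨l, h1, h2, h3⟩ := hD g
    refine ⟨l.attach.map fun x => ⟨x.1, h2 _ x.2⟩, by simpa using h1, ?_⟩
    have e : wp a (l.attach.map fun x => (⟨x.1, h2 _ x.2⟩ : {g : G // g ∈ A})) = l.prod := by
      unfold wp
      rw [List.map_map]
      congr 1
      exact l.attach_map_subtype_val
    rw [e]
    exact h3
  let x : Fin N → G := fun i => if h : (i : ℕ) < w.length then a (w.get ⟨i, h⟩) else 1
  have h1 : ∀ i, x i = 1 ∨ x i ∈ A := by
    intro i
    simp only [x]
    split_ifs with h
    · exact Or.inr (w.get ⟨i, h⟩).2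
    · exact Or.inl rfl
  have h2 : (List.ofFn x).prod = wp a w := by
    have h3 : List.ofFn x = w.map a ++ List.replicate (N - w.length) 1 := by
      apply List.ext_getElem
      · simp
        omega
      · intro i hi1 hi2
        rw [List.getElem_ofFn, List.getElem_append]
        simp only [x]
        split_ifs with h4 h5 h5
        · simp
        · simp at h5; omega
        · simp at h5; omega
        · simp
    rw [h3, List.prod_append]
    simp [wp]
  rw [← h2]
  exact hx x h1

theorem cond_image {S : Type u} [Group S] [DecidableEq S] {n N' k' : ℕ} (b : Fin k' → S)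
    (hv : ∀ v : List (Fin k'), v.length ≤ N' → wp b v ^ n = 1) :
    Cond N' n (Finset.univ.image b) := by
  intro x hx
  obtain ⟨v, hvl, hv'⟩ := word_of_list b (List.ofFn x) (by
    intro g hg
    rw [List.mem_ofFn] at hg
    obtain ⟨i, rfl⟩ := hg
    rcases hx i with h1 | h1
    · exact Or.inl h1
    · right
      rw [Finset.mem_image] at h1
      obtain ⟨j, _, hj⟩ := h1
      exact ⟨j, hj⟩)
  rw [← hv']
  exact hv v (hvl.trans (by simp))

theorem simple_image {U S : Type u} [Group U] [Group S] [Finite S] (p : U →* S)
    (hp : Function.Surjective p) (hS : IsSimpleGroup S) {n N' k' : ℕ} (b : Fin k' → U)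
    (hb : Subgroup.closure (Set.range b) = ⊤)
    (hv : ∀ v : List (Fin k'), v.length ≤ max 1 N' → wp b v ^ n = 1) :
    ¬ (Nat.card S).Coprime n ∧ ∃ A' : Finset S, A'.card ≤ k' ∧
      Subgroup.closure (A' : Set S) = ⊤ ∧ Cond N' n A' := by
  classical
  have hgenS : Subgroup.closure (Set.range fun j => p (b j)) = ⊤ := by
    have h1 : (Set.range fun j => p (b j)) = p '' Set.range b := by
      rw [← Set.range_comp]
      rfl
    rw [h1, ← MonoidHom.map_closure, hb, ← MonoidHom.range_eq_map]
    exact MonoidHom.range_eq_top.2 hp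
  have hvS : ∀ v : List (Fin k'), v.length ≤ max 1 N' → wp (fun j => p (b j)) v ^ n = 1 := by
    intro v hvl
    have h1 : wp (fun j => p (b j)) v = p (wp b v) := (map_wp p b v).symm
    rw [h1, ← map_pow, hv v hvl, map_one]
  refine ⟨fun hcop => ?_, Finset.univ.image fun j => p (b j), Finset.card_image_le.trans (by simp),
    ?_, cond_image _ fun v hvl => hvS v (hvl.trans (le_max_right _ _))⟩
  · have hb1 : ∀ j, p (b j) = 1 := by
      intro j
      have h1 : p (b j) ^ n = 1 := by
        have := hvS [j] (by
          rw [List.length_singleton]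
          exact le_max_left _ _)
        rwa [wp_single] at this
      have h2 : orderOf (p (b j)) ∣ n := orderOf_dvd_of_pow_eq_one h1
      have h3 : orderOf (p (b j)) ∣ Nat.card S := orderOf_dvd_natCard _
      have h4 : orderOf (p (b j)) ∣ 1 := by
        rw [← hcop]
        exact Nat.dvd_gcd h3 h2
      exact orderOf_eq_one_iff.1 (Nat.dvd_one.1 h4)
    have h5 : (⊤ : Subgroup S) = ⊥ := by
      rw [← hgenS, Subgroup.closure_eq_bot_iff]
      rintro _ ⟨j, rfl⟩
      exact hb1 j
    have := hS.toNontrivial
    exact top_ne_bot h5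
  · rw [Finset.coe_image, Finset.coe_univ, Set.image_univ]
    exact hgenS

theorem simple_part {U : Type u} [Group U] [Finite U] [Nontrivial U] {d n N' k' : ℕ}
    (b : Fin k' → U) (hb : Subgroup.closure (Set.range b) = ⊤)
    (hv : ∀ v : List (Fin k'), v.length ≤ max 1 N' → wp b v ^ n = 1)
    (hlin : ∀ (S : Type u) [Group S] (p : U →* S), Function.Surjective p → Nontrivial S →
      ¬ AbelianOrLinear d S) :
    ∃ (S : Type u) (_ : Group S) (p : U →* S), Function.Surjective p ∧ IsSimpleGroup S ∧
      ¬ AbelianOrLinear d S ∧ ¬ (Nat.card S).Coprime n ∧ ∃ A' : Finset S, A'.card ≤ k' ∧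
        Subgroup.closure (A' : Set S) = ⊤ ∧ Cond N' n A' := by
  obtain ⟨T, hTn, hT, hsimple⟩ := exists_simple (M := U)
  have h := simple_image (N' := N') (QuotientGroup.mk' T) (QuotientGroup.mk'_surjective T) hsimple
    b hb hv
  exact ⟨U ⧸ T, inferInstance, QuotientGroup.mk' T, QuotientGroup.mk'_surjective T, hsimple,
    hlin _ _ (QuotientGroup.mk'_surjective T) hsimple.toNontrivial, h.1, h.2⟩

theorem quot_part (k n R : ℕ) (hn : 0 < n) : ∃ k' : ℕ, ∀ d N' : ℕ, ∃ N : ℕ,
    ∀ (G : Type u) [Group G] (a : Fin k → G), Subgroup.closure (Set.range a) = ⊤ →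
      (Powers n G).FiniteIndex → (Powers n G).index ≤ R →
      (∀ w : List (Fin k), w.length ≤ N → wp a w ^ n = 1) →
        (∀ (S : Type u) [Group S] (p : Powers n G →* S), Function.Surjective p →
          AbelianOrLinear d S → Subsingleton S) ∧
        ∃ b : Fin k' → Powers n G, Subgroup.closure (Set.range b) = ⊤ ∧
          ∀ v : List (Fin k'), v.length ≤ N' → wp b v ^ n = 1 :=
  no_linear_quotient.{u} k n R hn

/-- **Soluble groups, and reduction to simple groups.** -/
theorem result (k n R : ℕ) (hn : 1 ≤ n) :
    (∀ (G : Type u) [Group G] (A : Finset G) (D N : ℕ), Subgroup.closure (A : Set G) = ⊤ →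
      Short D n A ∨ ((Powers n G).FiniteIndex ∧ (Powers n G).index ≤ D + 1) →
      3 * D + 1 ≤ N → Cond N n A →
        ⁅Powers n G, Powers n G⁆ = Powers n G ∧ (Group.IsSolvable G → ∀ g : G, g ^ n = 1)) ∧
    ∃ k' : ℕ, ∀ d N' : ℕ, ∃ N : ℕ,
      ∀ (G : Type u) [Group G] (A : Finset G), A.card ≤ k → Subgroup.closure (A : Set G) = ⊤ →
        (Powers n G).FiniteIndex → (Powers n G).index ≤ R → Cond N n A →
          (∀ (S : Type u) [Group S] (p : Powers n G →* S), Function.Surjective p →
            Nontrivial S → ¬ AbelianOrLinear d S) ∧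
          (∃ A' : Finset (Powers n G), A'.card ≤ k' ∧
            Subgroup.closure (A' : Set (Powers n G)) = ⊤ ∧ Cond N' n A') ∧
          (Finite G → ((∀ g : G, g ^ n = 1) ∧ Monoid.exponent G ≤ n) ∨
            ∃ (S : Type u) (_ : Group S) (p : Powers n G →* S), Function.Surjective p ∧
              IsSimpleGroup S ∧ ¬ AbelianOrLinear d S ∧ ¬ (Nat.card S).Coprime n ∧
                ∃ A' : Finset S, A'.card ≤ k' ∧ Subgroup.closure (A' : Set S) = ⊤ ∧
                  Cond N' n A') := by
  classical
  refine ⟨fun G _ A D N hgen hD hN hx => ?_, ?_⟩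
  · have hD' : Short D n A := hD.elim id fun h => short_of_index hn G A hgen h.1 h.2
    have h := perfect_part G A N hgen hD' hN hx
    exact ⟨h, fun hG g => Pw_solvable n hG h g⟩
  obtain ⟨k', hred⟩ := quot_part.{u} k n R hn
  refine ⟨k', fun d N' => ?_⟩
  obtain ⟨N, h⟩ := hred d (max 1 N')
  refine ⟨N, fun G _ A hA hgen hfi hidx hx => ?_⟩
  -- an enumeration of the generators, filled up with `1`
  let a : Fin k → G := fun i => if h : (i : ℕ) < A.card then
    (A.equivFin.symm ⟨i, h⟩ : G) else 1
  have ha : ∀ i, a i = 1 ∨ a i ∈ A := by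
    intro i
    simp only [a]
    split_ifs
    · exact Or.inr (Finset.coe_mem _)
    · exact Or.inl rfl
  have hgen' : Subgroup.closure (Set.range a) = ⊤ := by
    rw [eq_top_iff, ← hgen]
    refine Subgroup.closure_mono fun g hg => ?_
    have h1 := (A.equivFin ⟨g, hg⟩).2
    refine ⟨⟨A.equivFin ⟨g, hg⟩, lt_of_lt_of_le h1 hA⟩, ?_⟩
    simp only [a]
    rw [dif_pos h1]
    simp
  have hw : ∀ w : List (Fin k), w.length ≤ N → wp a w ^ n = 1 := by
    intro w hwl
    let x : Fin N → G := fun i => if h : (i : ℕ) < w.length then a (w.get ⟨i, h⟩) else 1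
    have h1 : ∀ i, x i = 1 ∨ x i ∈ A := by
      intro i
      simp only [x]
      split_ifs
      · exact ha _
      · exact Or.inl rfl
    have h2 : (List.ofFn x).prod = wp a w := by
      have h3 : List.ofFn x = w.map a ++ List.replicate (N - w.length) 1 := by
        apply List.ext_getElem
        · simp
          omega
        · intro i hi1 hi2
          rw [List.getElem_ofFn, List.getElem_append]
          simp only [x]
          split_ifs with h4 h5 h5
          · simp
          · simp at h5; omega
          · simp at h5; omega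
          · simp
      rw [h3, List.prod_append]
      simp [wp]
    rw [← h2]
    exact hx x h1
  have hexp : (∀ g : G, g ^ n = 1) → (∀ g : G, g ^ n = 1) ∧ Monoid.exponent G ≤ n :=
    fun h => ⟨h, Monoid.exponent_min' n hn h⟩
  obtain ⟨hquot, b, hb, hv⟩ := h G a hgen' hfi hidx hw
  have hlin : ∀ (S : Type u) [Group S] (p : Powers n G →* S), Function.Surjective p →
      Nontrivial S → ¬ AbelianOrLinear d S := by
    intro S _ p hp hS hl
    exact not_subsingleton_iff_nontrivial.2 hS (hquot S p hp hl)
  refine ⟨hlin, ⟨Finset.univ.image b, Finset.card_image_le.trans (by simp), ?_,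
    cond_image b fun v hvl => hv v (hvl.trans (le_max_right _ _))⟩, fun hfin => ?_⟩
  · rw [Finset.coe_image, Finset.coe_univ, Set.image_univ]
    exact hb
  rcases subsingleton_or_nontrivial (Powers n G) with hs | hnt
  · left
    refine hexp fun g => ?_
    have h1 : (⟨g ^ n, Subgroup.subset_closure ⟨g, rfl⟩⟩ : Powers n G) = 1 := Subsingleton.elim _ _
    exact congrArg Subtype.val h1
  right
  exact simple_part b hb hv hlin

end Pool.Agent.Results.MP_322c76_al.ReductionToSimple
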